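import Pool.Agent.L5helper19.TC.RelDefs
import Pool.Agent.L5helper73.TC.Main

/-!
# Vector valued forms: extension, invariance, and the operators which kill them
-/

set_option autoImplicit false
set_option linter.unusedSectionVars false

namespace Pool.Agent.L5helper19.TC

open Matrix Module Finset Pool.Agent.L5helper73.TC Pool.Agent.L5helper73.CC Pool.Agent.Y90

noncomputable section

variable {L : Type} [Field L] [CharZero L] {Γ : Type} [Group Γ] {w u : ℕ}
  {ρ : Γ →* Matrix (Fin w) (Fin w) L} {χ : Γ →* Lˣ} {E : Matrix (Fin w) (Fin w) L}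
  {I : Type} [Fintype I] [DecidableEq I] {st : I → I} {P : I → Matrix (Fin w) (Fin w) L}
  {ρU : Γ →* Matrix (Fin u) (Fin u) L}
  {κ : Type} [Fintype κ] [DecidableEq κ]

/-- the extension of a vector valued form to all vectors -/
def vv (T : (κ → Fin w) → Fin u → L) (v : κ → Fin w → L) : Fin u → L :=
  ∑ J, (∏ k, v k (J k)) • T J

theorem map_vv (f : (Fin u → L) →ₗ[L] L) (T : (κ → Fin w) → Fin u → L) (v : κ → Fin w → L) :
    f (vv T v) = mm (fun J => f (T J)) v := by
  unfold vv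
  rw [map_sum, mm_apply]
  refine Finset.sum_congr rfl fun J _ => ?_
  rw [map_smul, smul_eq_mul, mul_comm]

theorem vv_single (T : (κ → Fin w) → Fin u → L) (J : κ → Fin w) :
    vv T (fun k => Pi.single (J k) 1) = T J := by
  funext j
  have h1 := map_vv (LinearMap.proj j : (Fin u → L) →ₗ[L] L) T (fun k => Pi.single (J k) 1)
  rw [← evS_apply, evS_mm] at h1
  exact h1

omit [CharZero L] in
theorem vv_equiv {g : Matrix (Fin w) (Fin w) L} {c0 : L} {M : Matrix (Fin u) (Fin u) L}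
    {T : (κ → Fin w) → Fin u → L}
    (h : ∀ J, ∑ J' : κ → Fin w, (∏ k, g (J' k) (J k)) • T J' = c0 • M.mulVec (T J))
    (v : κ → Fin w → L) :
    vv T (fun k => g.mulVec (v k)) = c0 • M.mulVec (vv T v) := by
  unfold vv
  have h1 : ∀ J' : κ → Fin w, (∏ k, g.mulVec (v k) (J' k)) • T J' =
      ∑ J : κ → Fin w, ((∏ k, v k (J k)) * ∏ k, g (J' k) (J k)) • T J' := by
    intro J'
    rw [← Finset.sum_smul]
    congr 1
    have h2 : ∀ k, g.mulVec (v k) (J' k) = ∑ l, v k l * g (J' k) l := by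
      intro k
      rw [Matrix.mulVec, dotProduct]
      exact Finset.sum_congr rfl fun l _ => mul_comm _ _
    rw [Finset.prod_congr rfl fun k _ => h2 k, Finset.prod_univ_sum, Fintype.piFinset_univ]
    exact Finset.sum_congr rfl fun J _ => Finset.prod_mul_distrib
  rw [Finset.sum_congr rfl fun J' _ => h1 J', Finset.sum_comm]
  have h3 : ∀ J : κ → Fin w, ∑ J' : κ → Fin w, ((∏ k, v k (J k)) * ∏ k, g (J' k) (J k)) • T J' =
      c0 • M.mulVec ((∏ k, v k (J k)) • T J) := by
    intro J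
    rw [Matrix.mulVec_smul, smul_comm, ← h J, Finset.smul_sum]
    exact Finset.sum_congr rfl fun J' _ => mul_smul _ _ _
  rw [Finset.sum_congr rfl fun J _ => h3 J, ← Finset.smul_sum]
  congr 1
  have h4 := map_sum M.mulVecLin (fun J : κ → Fin w => (∏ k, v k (J k)) • T J) Finset.univ
  simp only [Matrix.mulVecLin_apply] at h4
  exact h4.symm

/-- the derivative of the invariance, for operators which are skew -/
theorem act_tate0 (hS : Symp ρ χ E) {t : (κ → Fin w) → L} {r : ℕ} {S : Set Γ}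
    (ht : ∀ γ ∈ S, ∀ J,
      ∑ J' : κ → Fin w, (∏ k, ρ γ (J' k) (J k)) * t J' = (χ γ : L) ^ r * t J)
    {X : Matrix (Fin w) (Fin w) L} (hX : X.transpose * E + E * X = 0)
    (hL : InLie (ρ '' S) X) (J : κ → Fin w) :
    ∑ k, ∑ l, X l (J k) * t (Function.update J k l) = 0 := by
  by_cases hE : ∃ a b, E a b ≠ 0
  · obtain ⟨a, b, hab⟩ := hE
    have h1 := hL (MvPolynomial.C (E a b ^ r) * FP t J - MvPolynomial.C (t J) * MP E a b ^ r) (by
      rintro _ ⟨γ, hγ, rfl⟩
      rw [map_sub, map_mul, map_mul, MvPolynomial.eval_C, MvPolynomial.eval_C, map_pow, FP_eval,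
        MP_eval, ht γ hγ, hS.sim, Matrix.smul_apply, smul_eq_mul, mul_pow]
      ring)
    change D X _ = 0 at h1
    rw [D_sub, D_mul, D_mul, D_C, D_C, zero_mul, zero_add, zero_mul, zero_add,
      MvPolynomial.eval_C, MvPolynomial.eval_C, FP_D, D_pow, MP_one, MP_D, hX, Matrix.zero_apply,
      mul_zero, mul_zero, sub_zero] at h1
    exact (mul_eq_zero.1 h1).resolve_left (pow_ne_zero r hab)
  · push Not at hE
    have h1 : E = 0 := by
      ext a b
      exact hE a b
    have h2 : w = 0 := by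
      by_contra hw
      have h3 := hS.unit
      have : Nonempty (Fin w) := ⟨⟨0, Nat.pos_of_ne_zero hw⟩⟩
      rw [h1, Matrix.det_zero] at h3
      exact not_isUnit_zero h3
    subst h2
    have : IsEmpty κ := ⟨fun k => (J k).elim0⟩
    rw [Finset.univ_eq_empty, Finset.sum_empty]

/-- the invariance of the coordinates of a relative Tate form, on the kernel of `ρU` -/
theorem coord_inv {T : (κ → Fin w) → Fin u → L} {c : ℕ} {Δ : Subgroup Γ}
    (ht : ∀ γ ∈ Δ, ∀ J, ∑ J' : κ → Fin w, (∏ k, ρ γ (J' k) (J k)) • T J' =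
      (χ γ : L) ^ c • (ρU γ).mulVec (T J)) (f : (Fin u → L) →ₗ[L] L) (γ : Γ)
    (hγ : γ ∈ {γ | γ ∈ Δ ∧ ρU γ = 1}) (J : κ → Fin w) :
    ∑ J' : κ → Fin w, (∏ k, ρ γ (J' k) (J k)) * f (T J') = (χ γ : L) ^ c * f (T J) := by
  obtain ⟨h1, h2⟩ := hγ
  have h3 := ht γ h1 J
  rw [h2, Matrix.one_mulVec] at h3
  have h4 := congrArg f h3
  rw [map_sum, map_smul, smul_eq_mul] at h4
  rw [← h4]
  exact Finset.sum_congr rfl fun J' _ => by rw [map_smul, smul_eq_mul]

/-- The coordinates of a relative Tate form are killed by the operators of trace zero on the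
pieces. -/
theorem kill_rel (hS : Symp ρ χ E) (hbig : BigRel ρ ρU E P) {T : (κ → Fin w) → Fin u → L} {c : ℕ}
    {Δ : Subgroup Γ} (hΔ : Δ.FiniteIndex)
    (ht : ∀ γ ∈ Δ, ∀ J, ∑ J' : κ → Fin w, (∏ k, ρ γ (J' k) (J k)) • T J' =
      (χ γ : L) ^ c • (ρU γ).mulVec (T J)) (f : (Fin u → L) →ₗ[L] L)
    (X : (Fin w → L) →ₗ[L] (Fin w → L)) (hX : Good (om E) (PP P) X)
    (hX' : ∀ i, tr (PP P) X i = 0) (v : κ → Fin w → L) : act (mm fun J => f (T J)) X v = 0 := by
  have hXg : X = Matrix.toLin' (LinearMap.toMatrix' X) := (Matrix.toLin'_toMatrix' X).symm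
  rw [hXg] at hX hX' ⊢
  obtain ⟨h1, h2⟩ := good.1 hX
  have h3 := hbig _ h1 h2 (fun i => by rw [← tr_toLin]; exact hX' i) Δ hΔ
  have h4 := act_of (mm fun J => f (T J)) (LinearMap.toMatrix' X) 0 (fun J => by
    rw [evS_mm, zero_mul]
    exact act_tate0 hS (coord_inv ht f) h2 h3 J) v
  rw [h4, zero_mul]

end

end Pool.Agent.L5helper19.TC
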