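import Pool.Agent.L5helper73.CC.A3

/-!
# The first fundamental theorem: the products of pairings and determinants
-/

set_option autoImplicit false
set_option linter.unusedSectionVars false

namespace Pool.Agent.L5helper19.TC

open Module Finset Pool.Agent.H204R3.SP Pool.Agent.H204R3.GP Pool.Agent.Y90
  Pool.Agent.L5helper73.CC

noncomputable section

variable {K : Type*} [Field K] [CharZero K] {Y : Type*} [AddCommGroup Y] [Module K Y]
  [FiniteDimensional K Y] {I : Type} [Fintype I] [DecidableEq I]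
  {ω : Y →ₗ[K] Y →ₗ[K] K} {P : I → Y →ₗ[K] Y} {st : I → I}
  {κ : Type} [Fintype κ] [DecidableEq κ]
  {n : ℕ} {e : Basis (Fin n ⊕ Fin n) K Y} {lab : Fin n ⊕ Fin n → I}

/-- A form with given weights is a combination of products of pairings and determinants. -/
theorem dat_span (h : Dat ω P st) (b : Adp ω P st e lab)
    {φ : MultilinearMap K (fun _ : κ => Y) K} {t : κ → I}
    (ht : OfType P φ t) (a : I → ℤ) (ha : ∀ i, a (st i) = -a i)
    (hφ : ∀ X, Good ω P X → ∀ v, act φ X v = (∑ q : (Σ i, Fin (a i).toNat), tr P X q.1) * φ v) :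
    evE e φ ∈ Submodule.span K (Y90.PD κ lab Sum.swap (jj ω e)
      (fun q : (Σ i, Fin (a i).toNat) => q.1)) := by
  classical
  refine sl_fft (jj := jj ω e) (Cs := fun q => st q.1) (fun x => Sum.swap_swap x) (fun x => ?_) b.ne
    (fun x y h' => ?_) (fun q : (Σ i, Fin (a i).toNat) => q.1) (fun q y => ?_)
    (fun q q' h' => ?_) (t := t) (fun L hL k => b.type ht L hL k) (fun x y hxy L => ?_)
  · unfold jj
    rw [Sum.swap_swap, h.skew]
  · rw [b.st, b.st, h']
  · rw [b.st, y.2]
  · have h1 := q.2.2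
    have h2 := q'.2.2
    have h3 := ha q.1
    rw [h'] at h3
    omega
  · rw [b.elemX, hφ _ (b.good_SS h hxy), ← neg_mul, evE_apply]
    congr 1
    rw [← Finset.sum_neg_distrib]
    refine Finset.sum_congr rfl fun q _ => ?_
    rw [b.tr_SS]
    unfold mu
    rw [neg_add]
    have h5 : ∀ x y : Fin n ⊕ Fin n, (if lab y = q.1 then ω (e x) (e y) else 0) =
        -(if lab y = q.1 ∧ x = y.swap then jj ω e y else 0) := by
      intro x y
      unfold jj
      by_cases h6 : lab y = q.1
      · by_cases h7 : x = y.swap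
        · rw [if_pos h6, if_pos ⟨h6, h7⟩, h7, h.skew]
        · rw [if_pos h6, if_neg (fun h8 => h7 h8.2), neg_zero, h.skew,
            b.ze y x h7, neg_zero]
      · rw [if_neg h6, if_neg (fun h8 => h6 h8.1), neg_zero]
    rw [h5 x y, h5 y x]
    ring

/-- The members of `PD` come from products of pairings and the product of the determinants. -/
theorem pd_form (N : ∀ (κ : Type) [Finite κ], Submodule K (MultilinearMap K (fun _ : κ => Y) K))
    (hN : Clo N) (hpair : ∀ i, bil (ω ∘ₗ P i) ∈ N (Fin 2)) (a : Adp ω P st e lab) {S : Type}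
    [Fintype S] (C : S → I) {D : MultilinearMap K (fun _ : (Σ q, Mem lab (C q)) => Y) K}
    (hD : ∀ v, D v = ∏ q, Matrix.det (Matrix.of
      fun y y' : Mem lab (C q) => e.coord y'.1 (v ⟨q, y⟩)))
    {F : (κ → Fin n ⊕ Fin n) → K} (hF : F ∈ Y90.PD κ lab Sum.swap (jj ω e) C) :
    ∃ (m : ℕ) (S0 : Finset (Fin m)) (e2 : (S0 × Fin 2) ⊕ (Σ q, Mem lab (C q)) ≃ κ) (c : S0 → I)
      (Ψ1 : MultilinearMap K (fun _ : S0 × Fin 2 => Y) K), Ψ1 ∈ N (S0 × Fin 2) ∧
      (∀ v, Ψ1 v = ∏ s, ω (P (c s) (v (s, 0))) (v (s, 1))) ∧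
      evE e ((prd Ψ1 D).domDomCongr e2) = F := by
  classical
  obtain ⟨m, S0, e2, c, rfl⟩ := hF
  obtain ⟨Ψ1, hΨ, hΨ'⟩ := hN.exists_fam (A := S0) (fun _ => Fin 2)
    (fun s => bil (ω ∘ₗ P (c s))) (fun s => hpair _) (Equiv.sigmaEquivProd S0 (Fin 2))
  have hΨ1 : ∀ v, Ψ1 v = ∏ s, ω (P (c s) (v (s, 0))) (v (s, 1)) := fun v => hΨ' v
  refine ⟨m, S0, e2, c, Ψ1, hΨ, hΨ1, ?_⟩
  funext J
  rw [evE_apply, MultilinearMap.domDomCongr_apply, prd_apply, hΨ1, hD]
  congr 1
  · refine Finset.prod_congr rfl fun s _ => ?_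
    rw [a.P]
    split_ifs with h
    · exact (a.JJ _ _).symm
    · rw [map_zero, LinearMap.zero_apply]
  · refine Finset.prod_congr rfl fun q _ => ?_
    congr 1
    ext y y'
    rw [Matrix.of_apply, Matrix.of_apply, Basis.coord_apply, Basis.repr_self,
      Finsupp.single_apply]

/-- coordinates in the piece -/
theorem coord_P (b : Adp ω P st e lab) {i : I} {y : Fin n ⊕ Fin n} (hy : lab y = i) (v : Y) :
    e.coord y (P i v) = e.coord y v := by
  have h1 : (e.coord y) ∘ₗ (P i) = e.coord y := by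
    refine e.ext fun z => ?_
    rw [LinearMap.comp_apply, b.P]
    split_ifs with h2
    · rfl
    · rw [map_zero, Basis.coord_apply, Basis.repr_self, Finsupp.single_apply, if_neg]
      intro h3
      apply h2
      rw [h3, hy]
  exact congrArg (fun g : Y →ₗ[K] K => g v) h1

/-- An operator which commutes with the projectors, in coordinates. -/
theorem coord_comm (b : Adp ω P st e lab) {g : Y →ₗ[K] Y} (hg : ∀ i u, g (P i u) = P i (g u))
    {i : I} (y' : Mem lab i) (v : Y) :
    e.coord y'.1 (g v) = ∑ y : Mem lab i, e.coord y.1 v * e.coord y'.1 (g (e y.1)) := by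
  have h0 : ∀ z, lab z ≠ i → e.coord y'.1 (g (e z)) = 0 := by
    intro z hz
    rw [← coord_P b y'.2, ← hg, b.P, if_neg hz, map_zero, map_zero]
  have h1 : e.coord y'.1 (g v) = ∑ z, e.coord z v * e.coord y'.1 (g (e z)) := by
    conv_lhs => rw [← e.sum_repr v]
    rw [map_sum, map_sum]
    refine Finset.sum_congr rfl fun z _ => ?_
    rw [map_smul, map_smul, smul_eq_mul]
    rfl
  rw [h1, ← Finset.sum_subtype (Finset.univ.filter fun z => lab z = i) (fun z => by simp)
    (fun z => e.coord z v * e.coord y'.1 (g (e z))), Finset.sum_filter]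
  refine Finset.sum_congr rfl fun z _ => ?_
  split_ifs with h
  · rfl
  · rw [h0 z h, mul_zero]

/-- The product of the determinants of `g` on the pieces `C q`. -/
theorem exists_det (b : Adp ω P st e lab) {g : Y →ₗ[K] Y} (hg : ∀ i u, g (P i u) = P i (g u))
    {S : Type} [Fintype S] (C : S → I) : ∃ δ : K, ∀ v : (Σ q, Mem lab (C q)) → Y,
    (∏ q, Matrix.det (Matrix.of fun y y' : Mem lab (C q) => e.coord y'.1 (g (v ⟨q, y⟩)))) =
      δ * ∏ q, Matrix.det (Matrix.of fun y y' : Mem lab (C q) => e.coord y'.1 (v ⟨q, y⟩)) := by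
  refine ⟨∏ q, Matrix.det (Matrix.of fun z y' : Mem lab (C q) => e.coord y'.1 (g (e z.1))),
    fun v => ?_⟩
  rw [← Finset.prod_mul_distrib]
  refine Finset.prod_congr rfl fun q _ => ?_
  rw [mul_comm, ← Matrix.det_mul]
  congr 1
  ext y y'
  rw [Matrix.of_apply, coord_comm b hg, Matrix.mul_apply]
  rfl

end

end Pool.Agent.L5helper19.TC
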