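import Pool.Agent.L5helper19.TC.Rel1
import Pool.Agent.L5helper19.TC.Rel2

/-!
# Relative forms: equivariance and membership of products of pairings and determinants
-/

set_option autoImplicit false
set_option linter.unusedSectionVars false

namespace Pool.Agent.L5helper19.TC

open Matrix Module Finset Pool.Agent.L5helper73.TC Pool.Agent.L5helper73.CC Pool.Agent.Y90

noncomputable section

section abstract

variable {K : Type*} [Field K] [CharZero K] {Y : Type*} [AddCommGroup Y] [Module K Y]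
  [FiniteDimensional K Y] {I : Type} [Fintype I] [DecidableEq I]
  {ω : Y →ₗ[K] Y →ₗ[K] K} {P : I → Y →ₗ[K] Y} {st : I → I}
  {κ : Type} [Fintype κ] [DecidableEq κ]
  {n : ℕ} {e : Basis (Fin n ⊕ Fin n) K Y} {lab : Fin n ⊕ Fin n → I}

/-- The forms which are multiplied by `μ` by the operator `g`. -/
def EqM (κ : Type) (g : Y →ₗ[K] Y) (μ : K) :
    Submodule K (MultilinearMap K (fun _ : κ => Y) K) where
  carrier := {Φ | ∀ v : κ → Y, Φ (fun k => g (v k)) = μ * Φ v}
  add_mem' := by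
    intro Φ Φ' h h' v
    rw [_root_.add_apply, _root_.add_apply, h v, h' v, mul_add]
  zero_mem' := by
    intro v
    rw [_root_.zero_apply, _root_.zero_apply, mul_zero]
  smul_mem' := by
    intro c Φ h v
    rw [_root_.smul_apply, _root_.smul_apply, h v, smul_eq_mul, smul_eq_mul]
    ring

theorem pd_card {C : Type} {m : ℕ} {S0 : Finset (Fin m)} [Fintype C]
    (e2 : (S0 × Fin 2) ⊕ C ≃ κ) : Fintype.card κ = 2 * Fintype.card S0 + Fintype.card C := by
  rw [← Fintype.card_congr e2, Fintype.card_sum, Fintype.card_prod, Fintype.card_fin, mul_comm]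

/-- The members of the span of `PD` are multiplied by the operators which commute with the
projectors and are similitudes. -/
theorem pd_equiv (a : Adp ω P st e lab) {S : Type} [Fintype S] (C : S → I)
    {g : Y →ₗ[K] Y} {x : K} (hx : ∀ i u v, ω (P i (g u)) (g v) = x * ω (P i u) v)
    {δ : K} (hδ : ∀ v : (Σ q, Mem lab (C q)) → Y,
      (∏ q, Matrix.det (Matrix.of fun y y' : Mem lab (C q) => e.coord y'.1 (g (v ⟨q, y⟩)))) =
      δ * ∏ q, Matrix.det (Matrix.of fun y y' : Mem lab (C q) => e.coord y'.1 (v ⟨q, y⟩)))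
    {p : ℕ} (hp : Fintype.card κ = 2 * p + Fintype.card (Σ q, Mem lab (C q)))
    {φ : MultilinearMap K (fun _ : κ => Y) K}
    (hφ : evE e φ ∈ Submodule.span K (Y90.PD κ lab Sum.swap (jj ω e) C)) (v : κ → Y) :
    φ (fun k => g (v k)) = x ^ p * δ * φ v := by
  classical
  obtain ⟨D, hD⟩ := exists_prodDet (Y := Y) (fun q => Mem lab (C q))
    (fun q (y : Mem lab (C q)) => e.coord y.1)
  have h1 : Submodule.span K (Y90.PD κ lab Sum.swap (jj ω e) C) ≤
      (EqM κ g (x ^ p * δ)).map (evE e) := by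
    rw [Submodule.span_le]
    intro F hF
    obtain ⟨m, S0, e2, c, Ψ1, -, hΨ1, rfl⟩ := pd_form (fun _ => ⊤)
      ⟨fun _ _ _ _ => trivial, fun _ _ _ _ _ _ _ _ _ _ _ _ _ => trivial⟩ (fun _ => trivial) a C
      hD hF
    refine ⟨_, fun v => ?_, rfl⟩
    have hc : Fintype.card S0 = p := by
      have h2 := pd_card e2
      omega
    rw [MultilinearMap.domDomCongr_apply, MultilinearMap.domDomCongr_apply, prd_apply, prd_apply,
      hΨ1, hΨ1, hD, hD, hδ (fun k => v (e2 (Sum.inr k)))]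
    simp only [hx]
    rw [Finset.prod_mul_distrib, Finset.prod_const, Finset.card_univ, hc]
    ring
  obtain ⟨ψ, hψ, hψF⟩ := h1 hφ
  rw [← evE_inj hψF]
  exact hψ v

end abstract

variable {L : Type} [Field L] [CharZero L] {Γ : Type} [Group Γ] {w u : ℕ}
  {ρ : Γ →* Matrix (Fin w) (Fin w) L} {χ : Γ →* Lˣ} {E : Matrix (Fin w) (Fin w) L}
  {I : Type} [Fintype I] [DecidableEq I] {st : I → I} {P : I → Matrix (Fin w) (Fin w) L}
  {ρU : Γ →* Matrix (Fin u) (Fin u) L}
  {κ : Type} [Fintype κ] [DecidableEq κ]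
  {𝒜 : ∀ κ : Type, Submodule L ((κ → Fin w) → L)}
  {ℬ : ∀ κ : Type, Submodule L ((κ → Fin w) → Fin u → L)}
  {n : ℕ} {e : Basis (Fin n ⊕ Fin n) L (Fin w → L)} {lab : Fin n ⊕ Fin n → I}

/-- multiplication by a vector -/
def sm (κ : Type) (v : Fin u → L) :
    ((κ → Fin w) → L) →ₗ[L] ((κ → Fin w) → Fin u → L) where
  toFun t := fun J => t J • v
  map_add' _ _ := funext fun _ => add_smul _ _ _
  map_smul' _ _ := funext fun _ => mul_smul _ _ _

/-- The members of the span of `PD`, multiplied by `v`, belong to the relative system if the product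
of the determinants does. -/
theorem pd_mem (hS : Symp ρ χ E) (hP : Pool.Agent.L5helper73.TC.Coeff ρ E st P) (h𝒜 : Pool.Agent.L5helper73.TC.ClassSystem ρ χ 𝒜)
    (hℬ : RelSystem 𝒜 ℬ) (a : Adp (om E) (PP P) st e lab) {S : Type} [Fintype S] (C : S → I)
    {D : MultilinearMap L (fun _ : (Σ q, Mem lab (C q)) => Fin w → L) L}
    (hD : ∀ v, D v = ∏ q, Matrix.det (Matrix.of
      fun y y' : Mem lab (C q) => e.coord y'.1 (v ⟨q, y⟩))) {v : Fin u → L}
    (hv : (fun J => evS D J • v) ∈ ℬ (Σ q, Mem lab (C q)))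
    {φ : MultilinearMap L (fun _ : κ => Fin w → L) L}
    (hφ : evE e φ ∈ Submodule.span L (Y90.PD κ lab Sum.swap (jj (om E) e) C)) :
    (fun J => evS φ J • v) ∈ ℬ κ := by
  classical
  have h1 : Submodule.span L (Y90.PD κ lab Sum.swap (jj (om E) e) C) ≤
      ((ℬ κ).comap ((sm κ v).comp evS)).map (evE e) := by
    rw [Submodule.span_le]
    intro F hF
    obtain ⟨m, S0, e2, c, Ψ1, hΨ, hΨ1, rfl⟩ := pd_form (NN 𝒜) (clo h𝒜)
      (fun i => pair h𝒜 hS hP i) a C hD hF
    refine ⟨_, ?_, rfl⟩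
    rw [SetLike.mem_coe, Submodule.mem_comap]
    have h2 := hℬ.mul _ _ _ _ (mem_NN.1 hΨ) hv
    have h3 := hℬ.perm _ _ e2 _ h2
    have h4 : ((sm κ v).comp evS) ((prd Ψ1 D).domDomCongr e2) =
        fun J => evS Ψ1 (fun k => J (e2 (Sum.inl k))) • (evS D (fun k => J (e2 (Sum.inr k))) • v) := by
      funext J
      rw [smul_smul]
      rfl
    rw [h4]
    exact h3
  obtain ⟨ψ, hψ, hψF⟩ := h1 hφ
  rw [← evE_inj hψF]
  exact hψ

end

end Pool.Agent.L5helper19.TC
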