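import Pool.Agent.L5helper19.TC.Rel3

/-!
# Determinants: minors of the projectors
-/

set_option autoImplicit false
set_option linter.unusedSectionVars false

namespace Pool.Agent.L5helper19.TC

open Matrix Module Finset Pool.Agent.L5helper73.TC Pool.Agent.L5helper73.CC Pool.Agent.Y90

noncomputable section

variable {L : Type} [Field L] [CharZero L] {Γ : Type} [Group Γ] {w u : ℕ}
  {ρ : Γ →* Matrix (Fin w) (Fin w) L} {χ : Γ →* Lˣ} {E : Matrix (Fin w) (Fin w) L}
  {I : Type} [Fintype I] [DecidableEq I] {st : I → I} {P : I → Matrix (Fin w) (Fin w) L}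
  {ρU : Γ →* Matrix (Fin u) (Fin u) L}
  {κ : Type} [Fintype κ] [DecidableEq κ]
  {𝒜 : ∀ κ : Type, Submodule L ((κ → Fin w) → L)}
  {ℬ : ∀ κ : Type, Submodule L ((κ → Fin w) → Fin u → L)}
  {n : ℕ} {e : Basis (Fin n ⊕ Fin n) L (Fin w → L)} {lab : Fin n ⊕ Fin n → I}

/-- the entries of the projectors -/
theorem entry (a : Adp (om E) (PP P) st e lab) (i : I) (r l : Fin w) :
    P i r l = ∑ y : Mem lab i, e y.1 r * e.coord y.1 (Pi.single l 1) := by
  have h1 : PP P i (Pi.single l 1) = ∑ z, e.coord z (Pi.single l 1) • PP P i (e z) := by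
    conv_lhs => rw [← e.sum_repr (Pi.single l 1)]
    rw [map_sum]
    refine Finset.sum_congr rfl fun z _ => ?_
    rw [map_smul]
    rfl
  have h2 : PP P i (Pi.single l 1) r = P i r l := by
    unfold PP
    rw [Matrix.toLin'_apply, Matrix.mulVec_single_one]
    rfl
  rw [← h2, h1, Finset.sum_apply, ← Finset.sum_subtype (Finset.univ.filter fun z => lab z = i)
    (fun z => by simp) (fun z => e z r * e.coord z (Pi.single l 1)), Finset.sum_filter]
  refine Finset.sum_congr rfl fun z _ => ?_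
  rw [Pi.smul_apply, a.P, smul_eq_mul]
  split_ifs with h
  · rw [mul_comm]
  · rw [Pi.zero_apply, mul_zero]

theorem minor_one (a : Adp (om E) (PP P) st e lab) (i : I) {n' : ℕ} (e' : Mem lab i ≃ Fin n')
    (K' J' : Fin n' → Fin w) : ((P i).submatrix K' J').det =
      (Matrix.of fun b b' : Fin n' => e (e'.symm b').1 (K' b)).det *
      (Matrix.of fun y y' : Mem lab i => e.coord y'.1 (Pi.single (J' (e' y)) 1)).det := by
  have h1 : (P i).submatrix K' J' = (Matrix.of fun b b' : Fin n' => e (e'.symm b').1 (K' b)) *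
      (Matrix.of fun b' a' : Fin n' => e.coord (e'.symm b').1 (Pi.single (J' a') 1)) := by
    ext b a'
    rw [Matrix.submatrix_apply, entry a, Matrix.mul_apply, ← e'.symm.sum_comp]
    rfl
  rw [h1, Matrix.det_mul]
  congr 1
  rw [← Matrix.det_transpose, ← Matrix.det_submatrix_equiv_self e']
  congr 1
  ext y y'
  simp

theorem detForm_eq (a : Adp (om E) (PP P) st e lab) {s : ℕ} (C : Fin s → I)
    (e' : ∀ q, Mem lab (C q) ≃ Fin (P (C q)).rank) (K : ∀ q, Fin (P (C q)).rank → Fin w)
    (J : (Σ q, Fin (P (C q)).rank) → Fin w) : detForm P C K J =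
      (∏ q, (Matrix.of fun b b' => e ((e' q).symm b').1 (K q b)).det) *
      ∏ q, (Matrix.of fun y y' : Mem lab (C q) =>
        e.coord y'.1 (Pi.single (J ⟨q, e' q y⟩) 1)).det := by
  unfold detForm
  rw [← Finset.prod_mul_distrib]
  exact Finset.prod_congr rfl fun q _ => minor_one a (C q) (e' q) (K q) fun b => J ⟨q, b⟩

theorem sum_eq_mm (t : (κ → Fin w) → L) (g : Matrix (Fin w) (Fin w) L) (J : κ → Fin w) :
    ∑ J' : κ → Fin w, (∏ k, g (J' k) (J k)) * t J' =
      mm t (fun k => Matrix.toLin' g (Pi.single (J k) 1)) := by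
  rw [mm_apply]
  refine Finset.sum_congr rfl fun J' _ => ?_
  rw [mul_comm]
  congr 1
  refine Finset.prod_congr rfl fun k _ => ?_
  rw [Matrix.toLin'_apply, Matrix.mulVec_single_one]
  rfl

/-- The determinants are multiplied by the product of the determinants of the operator on the
pieces. -/
theorem detForm_equiv (a : Adp (om E) (PP P) st e lab) {s : ℕ} (C : Fin s → I)
    (e' : ∀ q, Mem lab (C q) ≃ Fin (P (C q)).rank) (K : ∀ q, Fin (P (C q)).rank → Fin w)
    {g : Matrix (Fin w) (Fin w) L} {δ : L}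
    (hδ : ∀ v : (Σ q, Mem lab (C q)) → Fin w → L, (∏ q, Matrix.det (Matrix.of
      fun y y' : Mem lab (C q) => e.coord y'.1 (Matrix.toLin' g (v ⟨q, y⟩)))) =
      δ * ∏ q, Matrix.det (Matrix.of fun y y' : Mem lab (C q) => e.coord y'.1 (v ⟨q, y⟩)))
    (J : (Σ q, Fin (P (C q)).rank) → Fin w) :
    ∑ J', (∏ k, g (J' k) (J k)) * detForm P C K J' = δ * detForm P C K J := by
  classical
  obtain ⟨D, hD⟩ := exists_prodDet (Y := Fin w → L) (fun q => Mem lab (C q))
    (fun q (y : Mem lab (C q)) => e.coord y.1)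
  let E' : (Σ q, Mem lab (C q)) ≃ Σ q, Fin (P (C q)).rank := Equiv.sigmaCongrRight e'
  have h1 : mm (detForm P C K) = (∏ q, (Matrix.of fun b b' =>
      e ((e' q).symm b').1 (K q b)).det) • D.domDomCongr E' := by
    apply ext_evS
    rw [evS_mm, map_smul]
    funext J
    rw [detForm_eq a C e' K, Pi.smul_apply, smul_eq_mul, evS_apply,
      MultilinearMap.domDomCongr_apply, hD]
    rfl
  rw [sum_eq_mm, h1, _root_.smul_apply, MultilinearMap.domDomCongr_apply, hD, smul_eq_mul,
    detForm_eq a C e' K]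
  have h2 := hδ (fun k => Pi.single (J (E' k)) 1)
  have h3 : (∏ q, (Matrix.of fun y y' : Mem lab (C q) => e.coord y'.1
      (Matrix.toLin' g (Pi.single (J (E' ⟨q, y⟩)) 1))).det) = δ * ∏ q, (Matrix.of
      fun y y' : Mem lab (C q) => e.coord y'.1 (Pi.single (J ⟨q, e' q y⟩) 1)).det := h2
  rw [h3]
  ring

theorem hrank (a : Adp (om E) (PP P) st e lab) (i : I) :
    (P i).rank = Fintype.card {x // lab x = i} :=
  Pool.Agent.L5helper73.TC.rank (P i) (Fin n ⊕ Fin n) e (fun x => lab x = i) (fun x => by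
    have h1 := a.P i x
    unfold PP at h1
    rw [Matrix.toLin'_apply] at h1
    exact h1)

/-- The product of the determinants of coordinates is a combination of the products of minors. -/
theorem D_mem (a : Adp (om E) (PP P) st e lab) (hℬ : RelSystem 𝒜 ℬ) {S : Type} [Fintype S]
    (C : S → I) {D : MultilinearMap L (fun _ : (Σ q, Mem lab (C q)) => Fin w → L) L}
    (hD : ∀ v, D v = ∏ q, Matrix.det (Matrix.of
      fun y y' : Mem lab (C q) => e.coord y'.1 (v ⟨q, y⟩))) {v : Fin u → L}
    {s : ℕ} (f : Fin s ≃ S)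
    (hdet : ∀ K, (fun J => detForm P (fun q => C (f q)) K J • v) ∈
      ℬ (Σ q, Fin (P (C (f q))).rank)) :
    (fun J => evS D J • v) ∈ ℬ (Σ q, Mem lab (C q)) := by
  classical
  let C' : Fin s → I := fun q => C (f q)
  let e' : ∀ q, Mem lab (C' q) ≃ Fin (P (C' q)).rank := fun q =>
    Fintype.equivFinOfCardEq (hrank a (C' q)).symm
  let r : ∀ q, Mem lab (C' q) → Fin w → L := fun q y k => e.coord y.1 (Pi.single k 1)
  have hr : ∀ q y, Matrix.vecMul (r q y) (P (C' q)) = r q y := by
    intro q y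
    funext k
    have h1 := coord_P a y.2 (Pi.single k 1)
    unfold PP at h1
    rw [Matrix.toLin'_apply, Matrix.mulVec_single_one] at h1
    have h2 : (P (C' q)).col k = ∑ l, P (C' q) l k • (Pi.single l 1 : Fin w → L) := by
      funext i
      rw [Finset.sum_apply, Finset.sum_eq_single i]
      · simp [Matrix.col]
      · intro l _ hl
        rw [Pi.smul_apply, Pi.single_eq_of_ne hl.symm, smul_zero]
      · intro h
        exact absurd (Finset.mem_univ _) h
    rw [h2, map_sum] at h1
    change ∑ l, r q y l * P (C' q) l k = e.coord y.1 (Pi.single k 1)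
    refine Eq.trans ?_ h1
    refine Finset.sum_congr rfl fun l _ => ?_
    rw [map_smul, smul_eq_mul, mul_comm]
  have h1 := Pool.Agent.L5helper73.TC.minor _ (fun q => P (C' q)) (fun q => Mem lab (C' q)) (fun q => (P (C' q)).rank) e' r
    hr
  have h2 : Submodule.span L (Set.range fun K : ∀ q, Fin (P (C' q)).rank → Fin w =>
      fun J : (Σ q, Fin (P (C' q)).rank) → Fin w => ∏ q, ((P (C' q)).submatrix (K q)
        fun a => J ⟨q, a⟩).det) ≤ (ℬ (Σ q, Fin (P (C' q)).rank)).comap (sm _ v) := by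
    rw [Submodule.span_le]
    rintro _ ⟨K, rfl⟩
    exact hdet K
  let E' : (Σ q, Fin (P (C' q)).rank) ≃ Σ q : S, Mem lab (C q) :=
    (Equiv.sigmaCongrRight fun q => (e' q).symm).trans
      (Equiv.sigmaCongrLeft (β := fun q : S => Mem lab (C q)) f)
  have h3 := hℬ.perm _ _ E' _ (h2 h1)
  have h4 : (fun J => evS D J • v) = fun J => (∏ q, Matrix.det (Matrix.of
      fun y y' : Mem lab (C' q) => r q y' (J (E' ⟨q, e' q y⟩)))) • v := by
    funext J
    congr 1
    rw [evS_apply, hD, ← f.prod_comp]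
    refine Finset.prod_congr rfl fun q _ => ?_
    congr 1
    ext y y'
    rw [Matrix.of_apply, Matrix.of_apply]
    change e.coord y'.1 (Pi.single (J ⟨f q, y⟩) 1) = e.coord y'.1 (Pi.single _ 1)
    congr 2
    have h5 : E' ⟨q, e' q y⟩ = ⟨f q, y⟩ := by
      change (⟨f q, (e' q).symm (e' q y)⟩ : Σ q : S, Mem lab (C q)) = _
      rw [Equiv.symm_apply_apply]
    rw [h5]
  rw [h4]
  exact h3

end

end Pool.Agent.L5helper19.TC
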