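import Pool.Agent.L5helper73.TC.Defs

/-!
# Coefficient systems relative to an arbitrary representation: definitions

`ρ : Γ → GL(L^w)` is the Tate module of an abelian variety `A` over a field `K` (with coefficients in
`L`), and `ρU : Γ → GL(L^u)` the cohomology in degree `d` of an **arbitrary** smooth projective
variety `Z` over `K`.
-/

set_option autoImplicit false
set_option linter.unusedSectionVars false

namespace Pool.Agent.L5helper19.TC

open Matrix Finset Pool.Agent.L5helper73.TC

variable {L : Type} [Field L] {Γ : Type} [Group Γ] {w u : ℕ}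

/-- A multilinear form `T` on `L^w`, with variables indexed by `κ` and values in `L^u` (given by its
values on the basis vectors) is a Tate form if `2 c = d + |κ|` and
`T(γ x_1, ..., γ x_k) = χ(γ)^c ρU(γ) T(x_1, ..., x_k)` for all `γ` in a subgroup of finite index: it
gives a Tate class in the part `H^d(Z) ⊗ H^1(A) ⊗ ... ⊗ H^1(A) (c)` of the cohomology of
`Z × A^k`. -/
def IsTateRel (ρ : Γ →* Matrix (Fin w) (Fin w) L) (χ : Γ →* Lˣ)
    (ρU : Γ →* Matrix (Fin u) (Fin u) L) (d : ℕ) {κ : Type} [Fintype κ] [DecidableEq κ]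
    (T : (κ → Fin w) → Fin u → L) : Prop :=
  ∃ c : ℕ, 2 * c = d + Fintype.card κ ∧ ∃ Δ : Subgroup Γ, Δ.FiniteIndex ∧ ∀ γ ∈ Δ, ∀ J,
    ∑ J' : κ → Fin w, (∏ k, ρ γ (J' k) (J k)) • T J' = (χ γ : L) ^ c • (ρU γ).mulVec (T J)

/-- The monodromy is as large as the coefficient system allows, also on the kernel of the
representation `ρU`: for each subgroup `Δ` of finite index the Lie algebra of the Zariski closure of
the image of the `γ ∈ Δ` with `ρU γ = 1` contains all operators which preserve the `V_i`, are skew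
for `E` and have trace zero on each `V_i`. -/
def BigRel (ρ : Γ →* Matrix (Fin w) (Fin w) L) (ρU : Γ →* Matrix (Fin u) (Fin u) L)
    (E : Matrix (Fin w) (Fin w) L) {I : Type} (P : I → Matrix (Fin w) (Fin w) L) : Prop :=
  ∀ X : Matrix (Fin w) (Fin w) L, (∀ i, X * P i = P i * X) → Xᵀ * E + E * X = 0 →
    (∀ i, (X * P i).trace = 0) → ∀ Δ : Subgroup Γ, Δ.FiniteIndex →
      InLie (ρ '' {γ | γ ∈ Δ ∧ ρU γ = 1}) X

/-- A system of forms on `L^w` with values in `L^u` (for instance the spans of the algebraic classes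
on `Z × A^k`), closed under permutations of the variables and under products with the members of
the system `𝒜` of scalar forms (algebraic classes on the powers of `A`). -/
structure RelSystem (𝒜 : ∀ κ : Type, Submodule L ((κ → Fin w) → L))
    (ℬ : ∀ κ : Type, Submodule L ((κ → Fin w) → Fin u → L)) : Prop where
  perm : ∀ (κ l : Type) [Fintype κ] [Fintype l] (e : κ ≃ l) (T : (κ → Fin w) → Fin u → L),
    T ∈ ℬ κ → (fun J => T fun k => J (e k)) ∈ ℬ l
  mul : ∀ (κ l : Type) [Fintype κ] [Fintype l] (t : (κ → Fin w) → L)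
    (T : (l → Fin w) → Fin u → L), t ∈ 𝒜 κ → T ∈ ℬ l →
    (fun J : κ ⊕ l → Fin w => (t fun k => J (Sum.inl k)) • T fun k => J (Sum.inr k)) ∈ ℬ (κ ⊕ l)

/-- The only lines in `L^u` (the cohomology of `Z` in degree `d`) that are stable under a subgroup of
finite index are those spanned by Tate classes: then `d = 2 j`, and on a subgroup of finite index
`ρU` acts on the line by `χ ^ (-j)`. -/
def OnlyTateLines (χ : Γ →* Lˣ) (ρU : Γ →* Matrix (Fin u) (Fin u) L) (d : ℕ) : Prop :=
  ∀ v : Fin u → L, v ≠ 0 → ∀ Δ : Subgroup Γ, Δ.FiniteIndex →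
    (∀ γ ∈ Δ, ∃ a : L, (ρU γ).mulVec v = a • v) →
    ∃ j : ℕ, d = 2 * j ∧ ∃ Δ' : Subgroup Γ, Δ'.FiniteIndex ∧
      ∀ γ ∈ Δ', (χ γ : L) ^ j • (ρU γ).mulVec v = v

end Pool.Agent.L5helper19.TC
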